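import Pool.Agent.R602.ZR.Trans

/-!
# Compact Hausdorff quasi-metrizable spaces are metrizable in ZF

The models `ZermeloAtoms` of Zermelo set theory with atoms (in particular all models of ZF) are
defined in `Pool.Agent.Helper672.ZFA.Statement`, finite sets of a model (`FiniteIn`) in
`Pool.Agent.Y9.ZR.Defs`, and the other notions in `Pool.Agent.R602.ZR.Defs`.

The proof is done inside an arbitrary, possibly nonstandard, model. For a compact Hausdorff space
with a quasi-metric `q` the sets of the pairs `(x, y)` with `q z x < r` and `q z y < r` for some `z`
form a base of the uniformity of the space (a Lebesgue number argument and barycentric refinements,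
both without choice). A canonical sequence of these entourages gives the metric by chains.
-/

namespace Pool.Agent.Results.MP_dae09c_lc.MetrizableInZF

open Pool.Agent.Helper672.ZFA Pool.Agent.R602.ZR

universe u

/-- In every model of Zermelo set theory with atoms (hence in every model of ZF), every compact
Hausdorff quasi-metrizable space is metrizable. -/
theorem result (M : Type u) [L.Structure M] [ZermeloAtoms M] (R : M) [Field (El R)]
    [LinearOrder (El R)] [IsStrictOrderedRing (El R)] (hR : RealField R) (X τ : M)
    (_hτ : IsTopology X τ) (hc : IsCompactIn X τ) (hH : IsHausdorffIn X τ)
    (hq : QuasiMetrizable R X τ) : Metrizable R X τ := by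
  have : IsModel M := ZermeloAtoms.isModel
  exact QM.metrizable_of hR hc hH hq

end Pool.Agent.Results.MP_dae09c_lc.MetrizableInZF
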